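import Pool.Agent.W580.SH.StmA

/-!
Project SH, part AC2: the counting theorem when the maximal minor is `1/2`.
-/

set_option autoImplicit false

namespace Pool.Agent.W393.SH.AC2

open Pool.Agent.W580.SH Finset

variable {R : Type} {k : ℕ}

lemma indep_aux {b : Fin k → (R → ℝ)} (hb : LinearIndependent ℝ b) {n : ℕ} (e : Fin n → Fin k)
    (he : Function.Injective e) (s : Fin n → ℝ) (hs : ∀ j, s j ≠ 0) :
    LinearIndependent ℝ (fun j => s j • b (e j)) := by
  have h := (hb.comp e he).units_smul (fun j => Units.mk0 (s j) (hs j))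
  exact h

/-- the support -/
def A (β : Fin k → ℤ) : Finset (Fin k) := univ.filter fun j => β j ≠ 0

lemma mem_A {β : Fin k → ℤ} {j : Fin k} : j ∈ A β ↔ β j ≠ 0 := by simp [A]

/-- a representation with integral coefficients -/
structure P (D : Set (R → ℝ)) (b : Fin k → (R → ℝ)) (y : R → ℝ) (β : Fin k → ℤ) : Prop where
  mem : y ∈ D
  rep : y = ∑ j, (β j : ℝ) • b j

lemma unit_of {n : ℤ} (h : |n| ≤ 1) (h0 : n ≠ 0) : n = 1 ∨ n = -1 := by
  rw [abs_le] at h; omega

lemma abs_card {β : Fin k → ℤ} (h : ∀ j, |β j| ≤ 1) : ∑ j, |β j| = ((A β).card : ℤ) := by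
  rw [A, Finset.card_filter]
  push_cast
  refine Finset.sum_congr rfl fun j _ => ?_
  by_cases h0 : β j = 0
  · simp [h0]
  · rcases unit_of (h j) h0 with h1 | h1 <;> simp [h1]

lemma sum_A {b : Fin k → (R → ℝ)} {y : R → ℝ} {β : Fin k → ℤ}
    (h : y = ∑ j, (β j : ℝ) • b j) : y = ∑ j ∈ A β, (β j : ℝ) • b j := by
  rw [h, A, Finset.sum_filter]
  refine Finset.sum_congr rfl fun j _ => ?_
  by_cases h0 : β j = 0
  · simp [h0]
  · simp [h0]

/-- the context -/
structure Cx (D : Set (R → ℝ)) (ρ : Fin k → R) (b : Fin k → (R → ℝ)) : Prop where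
  sym : ∀ x ∈ D, -x ∈ D
  bD : ∀ j, b j ∈ D
  ind : LinearIndependent ℝ b
  le1 : ∀ y β, P D b y β → ∀ j, |β j| ≤ 1
  two : ∀ y β y' β', P D b y β → P D b y' β' → ∀ i j, i ≠ j → |β i * β' j - β j * β' i| ≤ 1
  star : ∀ (y : R → ℝ) (β : Fin k → ℤ) (i0 : Fin k) (y' : R → ℝ) (γ : Fin k → ℝ), P D b y β →
    β i0 ≠ 0 → y' ∈ D →
    (∀ a, y' (ρ a) = ∑ i, γ i * (Function.update b i0 y) i (ρ a)) → ∑ j, |γ j| ≤ 3
  bad : ¬ Bad D
  six : ∀ x : Fin 6 → (R → ℝ), (∀ j, x j ∈ D) →
      -(x 0 + x 1 + x 2) ∈ D → -(x 3 + x 4 + x 5) ∈ D → ¬ LinearIndependent ℝ x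

lemma P.neg {D : Set (R → ℝ)} {ρ : Fin k → R} {b : Fin k → (R → ℝ)} (c : Cx D ρ b)
    {y : R → ℝ} {β : Fin k → ℤ} (h : P D b y β) : P D b (-y) (-β) where
  mem := c.sym _ h.mem
  rep := by
    rw [h.rep, ← Finset.sum_neg_distrib]
    refine Finset.sum_congr rfl fun j _ => ?_
    simp

lemma A_neg (β : Fin k → ℤ) : A (-β) = A β := by
  ext j; simp [mem_A]

lemma smul_mem {D : Set (R → ℝ)} {ρ : Fin k → R} {b : Fin k → (R → ℝ)} (c : Cx D ρ b)
    {n : ℤ} (h : |n| ≤ 1) (h0 : n ≠ 0) (j : Fin k) : (n : ℝ) • b j ∈ D := by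
  rcases unit_of h h0 with h1 | h1
  · rw [h1]; simpa using c.bD j
  · rw [h1]; simpa using c.sym _ (c.bD j)

/-- coefficients agree on the common support -/
lemma agree {D : Set (R → ℝ)} {ρ : Fin k → R} {b : Fin k → (R → ℝ)} (c : Cx D ρ b)
    {y y' : R → ℝ} {β β' : Fin k → ℤ} (h : P D b y β) (h' : P D b y' β') {i0 : Fin k}
    (hi : β i0 ≠ 0) (he : β i0 = β' i0) {j : Fin k} (hj : β j ≠ 0) (hj' : β' j ≠ 0) :
    β j = β' j := by
  by_cases hij : i0 = j
  · rw [← hij]; exact he
  have h1 := c.two y β y' β' h h' i0 j hij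
  rw [← he] at h1
  rcases unit_of (c.le1 _ _ h i0) hi with h2 | h2 <;>
  rcases unit_of (c.le1 _ _ h j) hj with h3 | h3 <;>
  rcases unit_of (c.le1 _ _ h' j) hj' with h4 | h4 <;>
  rw [h2, h3, h4] at h1 <;> rw [h3, h4] <;> norm_num at h1

/-- common support of size at least two -/
lemma card_inter {D : Set (R → ℝ)} {ρ : Fin k → R} {b : Fin k → (R → ℝ)} (c : Cx D ρ b)
    {y y' : R → ℝ} {β β' : Fin k → ℤ} (h : P D b y β) (h' : P D b y' β') {i0 : Fin k}
    (hi : β i0 ≠ 0) (he : β i0 = β' i0) (hA : (A β).card = 3) (hA' : (A β').card = 3) :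
    2 ≤ (A β ∩ A β').card := by
  classical
  set γ : Fin k → ℝ := fun j => if j = i0 then 1 else ((β' j : ℝ) - β j) with hγ
  have h1 := c.star y β i0 y' γ h hi h'.mem (by
    intro a
    have e1 : ∀ i, γ i * (Function.update b i0 y) i (ρ a)
        = ((β' i : ℝ) - β i) * b i (ρ a) + if i = i0 then y (ρ a) else 0 := by
      intro i
      by_cases hii : i = i0
      · subst hii; simp [hγ, he]
      · simp [hγ, hii]
    rw [Finset.sum_congr rfl fun i _ => e1 i, Finset.sum_add_distrib,
      Finset.sum_ite_eq' univ i0]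
    simp only [sub_mul, Finset.sum_sub_distrib, Finset.mem_univ, if_true]
    have e2 : y (ρ a) = ∑ i, (β i : ℝ) * b i (ρ a) := by
      conv_lhs => rw [h.rep]
      simp
    have e3 : y' (ρ a) = ∑ i, (β' i : ℝ) * b i (ρ a) := by
      conv_lhs => rw [h'.rep]
      simp
    rw [← e2, ← e3]; ring)
  have h2 : ∀ j, (if j = i0 then (1 : ℝ) else 0) + (if j ∈ A β then (1 : ℝ) else 0)
      + (if j ∈ A β' then (1 : ℝ) else 0)
      - 2 * (if j ∈ A β ∩ A β' then (1 : ℝ) else 0) ≤ |γ j| := by
    intro j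
    have m1 := @mem_A k β j
    have m2 := @mem_A k β' j
    by_cases hj : j = i0
    · subst hj
      have hb' : β' j ≠ 0 := he ▸ hi
      simp [hγ, mem_A, hi, hb']
      norm_num
    · by_cases a1 : β j = 0 <;> by_cases a2 : β' j = 0
      · simp [hγ, mem_A, a1, a2, hj]
      · rcases unit_of (c.le1 _ _ h' j) a2 with h4 | h4 <;>
        simp [hγ, mem_A, a1, h4, hj]
      · rcases unit_of (c.le1 _ _ h j) a1 with h4 | h4 <;>
        simp [hγ, mem_A, a2, h4, hj]
      · simp [hγ, mem_A, a1, a2, hj]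
        norm_num
  have h3 := Finset.sum_le_sum fun j (_ : j ∈ (univ : Finset (Fin k))) => h2 j
  simp only [Finset.sum_sub_distrib, Finset.sum_add_distrib, ← Finset.mul_sum,
    Finset.sum_ite_mem, Finset.sum_ite_eq', Finset.mem_univ, if_true, Finset.univ_inter,
    Finset.sum_const, nsmul_eq_mul, mul_one, hA, hA'] at h3
  have h4 : (2 : ℝ) ≤ ((A β ∩ A β').card : ℝ) := by push_cast at h3; linarith
  exact_mod_cast h4

lemma eq_of_agree {D : Set (R → ℝ)} {ρ : Fin k → R} {b : Fin k → (R → ℝ)} (c : Cx D ρ b)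
    {y y' : R → ℝ} {β β' : Fin k → ℤ} (h : P D b y β) (h' : P D b y' β') {i0 : Fin k}
    (hi : β i0 ≠ 0) (he : β i0 = β' i0) (hA : (A β).card = 3) (hA' : (A β').card = 3) :
    y = y' := by
  classical
  have h2 := card_inter c h h' hi he hA hA'
  have hle : (A β ∩ A β').card ≤ 3 := hA ▸ Finset.card_le_card Finset.inter_subset_left
  rcases Nat.lt_or_ge 2 (A β ∩ A β').card with h3 | h3
  · -- same support
    have e1 : A β ∩ A β' = A β := Finset.eq_of_subset_of_card_le Finset.inter_subset_left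
      (by omega)
    have e2 : A β ∩ A β' = A β' := Finset.eq_of_subset_of_card_le Finset.inter_subset_right
      (by omega)
    have e3 : A β = A β' := e1.symm.trans e2
    rw [sum_A h.rep, sum_A h'.rep, ← e3]
    refine Finset.sum_congr rfl fun j hj => ?_
    have hj' : j ∈ A β' := e3 ▸ hj
    rw [agree c h h' hi he (mem_A.1 hj) (mem_A.1 hj')]
  · exfalso
    have h4 : (A β ∩ A β').card = 2 := le_antisymm h3 h2
    have h5 : (A β \ A β').card = 1 := by
      have := Finset.card_sdiff_add_card_inter (A β) (A β'); omega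
    have h6 : (A β' \ A β).card = 1 := by
      have := Finset.card_sdiff_add_card_inter (A β') (A β)
      rw [Finset.inter_comm] at this; omega
    obtain ⟨i, j, hij, e⟩ := Finset.card_eq_two.1 h4
    obtain ⟨l, el⟩ := Finset.card_eq_one.1 h5
    obtain ⟨m, em⟩ := Finset.card_eq_one.1 h6
    have mi : i ∈ A β ∩ A β' := e ▸ by simp
    have mj : j ∈ A β ∩ A β' := e ▸ by simp
    have ml : l ∈ A β \ A β' := el ▸ by simp
    have mm : m ∈ A β' \ A β := em ▸ by simp
    simp only [Finset.mem_inter, Finset.mem_sdiff] at mi mj ml mm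
    have hil : i ≠ l := by rintro rfl; exact ml.2 mi.2
    have hjl : j ≠ l := by rintro rfl; exact ml.2 mj.2
    have him : i ≠ m := by rintro rfl; exact mm.2 mi.1
    have hjm : j ≠ m := by rintro rfl; exact mm.2 mj.1
    have hlm : l ≠ m := by rintro rfl; exact mm.2 ml.1
    have sA : A β = {i, j, l} := by
      have := Finset.sdiff_union_inter (A β) (A β')
      rw [← this, e, el]
      ext x; simp; tauto
    have sA' : A β' = {i, j, m} := by
      have := Finset.sdiff_union_inter (A β') (A β)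
      rw [← this, Finset.inter_comm, e, em]
      ext x; simp; tauto
    have y1 : (β i : ℝ) • b i + (β j : ℝ) • b j + (β l : ℝ) • b l = y := by
      have := sum_A h.rep
      rw [sA, Finset.sum_insert (by simp [hij, hil]), Finset.sum_insert (by simp [hjl]),
        Finset.sum_singleton] at this
      rw [this]; abel
    have y2 : (β i : ℝ) • b i + (β j : ℝ) • b j + (β' m : ℝ) • b m = y' := by
      have := sum_A h'.rep
      rw [sA', Finset.sum_insert (by simp [hij, him]), Finset.sum_insert (by simp [hjm]),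
        Finset.sum_singleton, ← agree c h h' hi he (mem_A.1 mi.1) (mem_A.1 mi.2),
        ← agree c h h' hi he (mem_A.1 mj.1) (mem_A.1 mj.2)] at this
      rw [this]; abel
    apply c.bad
    refine ⟨(β i : ℝ) • b i, (β j : ℝ) • b j, (β l : ℝ) • b l, (β' m : ℝ) • b m,
      smul_mem c (c.le1 _ _ h i) (mem_A.1 mi.1) i, smul_mem c (c.le1 _ _ h j) (mem_A.1 mj.1) j,
      smul_mem c (c.le1 _ _ h l) (mem_A.1 ml.1) l, smul_mem c (c.le1 _ _ h' m) (mem_A.1 mm.1) m,
      y1 ▸ h.mem, y2 ▸ h'.mem, ?_⟩
    have := indep_aux c.ind ![i, j, l, m] (by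
      intro p q hpq
      clear h2 hle h3 h4 h5 h6 e el em mi mj ml mm sA sA' y1 y2 h h' hA hA' c
      fin_cases p <;> fin_cases q <;>
        first | rfl | exact absurd hpq (by assumption) | exact absurd hpq.symm (by assumption))
      ![(β i : ℝ), (β j : ℝ), (β l : ℝ), (β' m : ℝ)] (by
        intro p
        fin_cases p
        · simpa using mem_A.1 mi.1
        · simpa using mem_A.1 mj.1
        · simpa using mem_A.1 ml.1
        · simpa using mem_A.1 mm.1)
    convert this using 1
    funext p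
    fin_cases p <;> rfl

lemma triples {D : Set (R → ℝ)} {ρ : Fin k → R} {b : Fin k → (R → ℝ)} (c : Cx D ρ b)
    {y y' : R → ℝ} {β β' : Fin k → ℤ} (h : P D b y β) (h' : P D b y' β')
    (hA : (A β).card = 3) (hA' : (A β').card = 3) : y' = y ∨ y' = -y := by
  classical
  by_cases hne : ∃ i0, β i0 ≠ 0 ∧ β' i0 ≠ 0
  · obtain ⟨i0, h0, h0'⟩ := hne
    have hu := unit_of (c.le1 _ _ h i0) h0
    have hu' := unit_of (c.le1 _ _ h' i0) h0'
    by_cases he : β i0 = β' i0
    · left; exact (eq_of_agree c h h' h0 he hA hA').symm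
    · right
      have he' : β i0 = (-β') i0 := by
        rw [Pi.neg_apply]
        rcases hu with h1 | h1 <;> rcases hu' with h2 | h2 <;> rw [h1, h2] at he <;>
          rw [h1, h2] <;> simp at he ⊢
      have := eq_of_agree c h (h'.neg c) h0 he' hA (by rw [A_neg]; exact hA')
      rw [this]; simp
  · exfalso
    push Not at hne
    obtain ⟨i, j, l, hij, hil, hjl, e⟩ := Finset.card_eq_three.1 hA
    obtain ⟨i', j', l', hij', hil', hjl', e'⟩ := Finset.card_eq_three.1 hA'
    have mi : β i ≠ 0 := mem_A.1 (e ▸ by simp)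
    have mj : β j ≠ 0 := mem_A.1 (e ▸ by simp)
    have ml : β l ≠ 0 := mem_A.1 (e ▸ by simp)
    have mi' : β' i' ≠ 0 := mem_A.1 (e' ▸ by simp)
    have mj' : β' j' ≠ 0 := mem_A.1 (e' ▸ by simp)
    have ml' : β' l' ≠ 0 := mem_A.1 (e' ▸ by simp)
    have y1 : (β i : ℝ) • b i + (β j : ℝ) • b j + (β l : ℝ) • b l = y := by
      have := sum_A h.rep
      rw [e, Finset.sum_insert (by simp [hij, hil]), Finset.sum_insert (by simp [hjl]),
        Finset.sum_singleton] at this
      rw [this]; abel
    have y2 : (β' i' : ℝ) • b i' + (β' j' : ℝ) • b j' + (β' l' : ℝ) • b l' = y' := by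
      have := sum_A h'.rep
      rw [e', Finset.sum_insert (by simp [hij', hil']), Finset.sum_insert (by simp [hjl']),
        Finset.sum_singleton] at this
      rw [this]; abel
    have d : ∀ p q, β p ≠ 0 → β' q ≠ 0 → p ≠ q := by
      rintro p q hp hq rfl; exact hq (hne p hp)
    have h6 := c.six (fun p => ![(β i : ℝ), (β j : ℝ), (β l : ℝ), (β' i' : ℝ), (β' j' : ℝ),
      (β' l' : ℝ)] p • b (![i, j, l, i', j', l'] p)) (by
        intro p
        fin_cases p
        · exact smul_mem c (c.le1 _ _ h i) mi i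
        · exact smul_mem c (c.le1 _ _ h j) mj j
        · exact smul_mem c (c.le1 _ _ h l) ml l
        · exact smul_mem c (c.le1 _ _ h' i') mi' i'
        · exact smul_mem c (c.le1 _ _ h' j') mj' j'
        · exact smul_mem c (c.le1 _ _ h' l') ml' l')
      (by
        have : -y ∈ D := c.sym _ h.mem
        rw [← y1] at this
        exact this)
      (by
        have : -y' ∈ D := c.sym _ h'.mem
        rw [← y2] at this
        exact this)
    apply h6
    apply indep_aux c.ind ![i, j, l, i', j', l']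
    · have d1 := d i i' mi mi'
      have d2 := d i j' mi mj'
      have d3 := d i l' mi ml'
      have d4 := d j i' mj mi'
      have d5 := d j j' mj mj'
      have d6 := d j l' mj ml'
      have d7 := d l i' ml mi'
      have d8 := d l j' ml mj'
      have d9 := d l l' ml ml'
      clear d h6 hne e e' y1 y2 h h' hA hA' c mi mj ml mi' mj' ml'
      intro p q hpq
      fin_cases p <;> fin_cases q <;>
        first | rfl | exact absurd hpq (by assumption) | exact absurd hpq.symm (by assumption)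
    · intro p
      fin_cases p
      · simpa using mi
      · simpa using mj
      · simpa using ml
      · simpa using mi'
      · simpa using mj'
      · simpa using ml'

/-- the context from the hypotheses -/
theorem main (hM : S_MINOR) (hC : S_CRAM) (hH : S_HALF) (hS : S_STARB) (hX : S_SIX) :
    S_AC2 := by
  intro R _ _ D t sym half star bad k ρ b hb hm hmax span
  classical
  have hm0 : mn ρ b ≠ 0 := by
    intro h; rw [h] at hm; norm_num at hm
  have ind : LinearIndependent ℝ b := (hM R k b).2 ⟨ρ, hm0⟩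
  have h2m : 2 * mn ρ b = 1 ∨ 2 * mn ρ b = -1 := by
    rcases abs_choice (mn ρ b) with h | h
    · left; rw [h] at hm; linarith
    · right; rw [h] at hm; linarith
  have val : ∀ (y : R → ℝ) (β : Fin k → ℝ), y = ∑ j, β j • b j →
      ∀ a, y (ρ a) = ∑ i, β i * b i (ρ a) := by
    intro y β h a
    conv_lhs => rw [h]
    simp
  have upd : ∀ (c : Fin k → (R → ℝ)), (∀ j, c j ∈ D) → ∀ y ∈ D, ∀ i j,
      Function.update c i y j ∈ D := by
    intro c hc y hy i j
    by_cases hij : j = i
    · subst hij; simpa using hy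
    · rw [Function.update_of_ne hij]; exact hc j
  have integ : ∀ (c : Fin k → (R → ℝ)) (x : ℝ), (∀ j, c j ∈ D) → mn ρ c = x * mn ρ b →
      ∃ n : ℤ, x = n ∧ |n| ≤ 1 := by
    intro c x hc hx
    obtain ⟨n, hn⟩ := hH R (D : Set (R → ℝ)) t half k ρ c hc
    have h3 := hmax c hc
    rw [hx, abs_mul, hm] at h3
    have h4 : |x| ≤ 1 := by linarith
    rw [hx] at hn
    rcases h2m with h | h
    · have hxn : x = n := by rw [← hn]; linear_combination (-x) * h
      refine ⟨n, hxn, ?_⟩
      rw [hxn] at h4; exact_mod_cast h4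
    · have hxn : x = ((-n : ℤ) : ℝ) := by push_cast; rw [← hn]; linear_combination (x) * h
      refine ⟨-n, hxn, ?_⟩
      rw [hxn] at h4; exact_mod_cast h4
  have one : ∀ y ∈ D, ∀ β : Fin k → ℝ, y = ∑ j, β j • b j → ∀ j, ∃ n : ℤ, β j = n ∧ |n| ≤ 1 := by
    intro y hy β hβ j
    exact integ _ _ (upd b hb y hy j) (hC.1 R k ρ b y β j (val y β hβ))
  have cx : Cx (D : Set (R → ℝ)) ρ b :=
    { sym := fun x hx => sym x hx
      bD := hb
      ind := ind
      le1 := by
        intro y β h j
        obtain ⟨n, hn, hn'⟩ := one y h.mem (fun j => (β j : ℝ)) h.rep j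
        have : β j = n := by exact_mod_cast hn
        rw [this]; exact hn'
      two := by
        intro y β y' β' h h' i j hij
        obtain ⟨n, hn, hn'⟩ := integ _ _ (upd _ (upd b hb y h.mem i) y' h'.mem j)
          (hC.2 R k ρ b y y' (fun j => (β j : ℝ)) (fun j => (β' j : ℝ)) i j hij
            (val y _ h.rep) (val y' _ h'.rep))
        have : β i * β' j - β j * β' i = n := by exact_mod_cast hn
        rw [this]; exact hn'
      star := by
        intro y β i0 y' γ h h0 hy' hγ
        have h1 := hS R (D : Set (R → ℝ)) star k ρ (Function.update b i0 y) y' γ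
          (upd b hb y h.mem i0) hy' hγ
        rw [hC.1 R k ρ b y (fun j => (β j : ℝ)) i0 (val y _ h.rep), abs_mul, hm] at h1
        obtain ⟨n, hn, hn'⟩ := one y h.mem (fun j => (β j : ℝ)) h.rep i0
        have hb0 : β i0 = n := by exact_mod_cast hn
        have h3 : |(β i0 : ℝ)| = 1 := by
          rcases unit_of (hb0 ▸ hn') h0 with h4 | h4 <;> rw [h4] <;> simp
        simp only [h3] at h1
        linarith
      bad := bad
      six := fun x h1 h2 h3 => hX R (D : Set (R → ℝ)) t half star x h1 h2 h3 }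
  have rep : ∀ y ∈ D, ∃ β : Fin k → ℤ, P (D : Set (R → ℝ)) b y β := by
    intro y hy
    obtain ⟨β, hβ⟩ := span y hy
    choose n hn hn' using one y hy β hβ
    refine ⟨n, hy, ?_⟩
    rw [hβ]
    exact Finset.sum_congr rfl fun j _ => by rw [hn j]
  -- a row with value one half
  obtain ⟨a0, ha0⟩ : ∃ a, t (ρ a) = 1 / 2 := by
    by_contra hcon
    push Not at hcon
    have h0 : ∀ a, t (ρ a) = 0 := fun a => (half.1 (ρ a)).resolve_right (hcon a)
    have h1 : ∀ j a, ∃ n : ℤ, b j (ρ a) = n := by
      intro j a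
      obtain ⟨n, hn⟩ := half.2 (b j) (hb j) (ρ a)
      exact ⟨n, by rw [hn, h0, zero_add]⟩
    choose N hN using h1
    have h2 : mn ρ b = ((Matrix.of fun a j => N j a : Matrix (Fin k) (Fin k) ℤ).det : ℝ) := by
      unfold mn
      have e : ((Matrix.of fun a j => N j a : Matrix (Fin k) (Fin k) ℤ).det : ℝ)
          = ((Int.castRingHom ℝ).mapMatrix (Matrix.of fun a j => N j a)).det := by
        rw [← RingHom.map_det]; rfl
      rw [e]
      congr 1
      ext a j
      simp [hN]
    rw [h2] at h2m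
    rcases h2m with h | h
    · have h3 : 2 * (Matrix.of fun a j => N j a : Matrix (Fin k) (Fin k) ℤ).det = 1 := by
        exact_mod_cast h
      omega
    · have h3 : 2 * (Matrix.of fun a j => N j a : Matrix (Fin k) (Fin k) ℤ).det = -1 := by
        exact_mod_cast h
      omega
  have odd : ∀ y β, P (D : Set (R → ℝ)) b y β → Odd (∑ j, β j) := by
    intro y β h
    obtain ⟨n, hn⟩ := half.2 y h.mem (ρ a0)
    have h1 : ∀ j, ∃ n : ℤ, b j (ρ a0) = 1 / 2 + n := by
      intro j
      obtain ⟨n, hn⟩ := half.2 (b j) (hb j) (ρ a0)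
      exact ⟨n, by rw [hn, ha0]⟩
    choose N hN using h1
    have h2 := val y _ h.rep a0
    rw [hn, ha0] at h2
    have h3 : (1 : ℝ) + 2 * n = ∑ j, (β j : ℝ) + 2 * ∑ j, (β j : ℝ) * (N j : ℝ) := by
      have : ∑ i, (β i : ℝ) * b i (ρ a0)
          = (1 / 2) * ∑ j, (β j : ℝ) + ∑ j, (β j : ℝ) * (N j : ℝ) := by
        rw [Finset.mul_sum, ← Finset.sum_add_distrib]
        exact Finset.sum_congr rfl fun j _ => by rw [hN j]; ring
      rw [this] at h2
      linarith
    have h4 : 1 + 2 * n = ∑ j, β j + 2 * ∑ j, β j * N j := by exact_mod_cast h3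
    exact ⟨n - ∑ j, β j * N j, by linarith⟩
  have card3 : ∀ y β, P (D : Set (R → ℝ)) b y β → (A β).card = 1 ∨ (A β).card = 3 := by
    intro y β h
    have h1 := hS R (D : Set (R → ℝ)) star k ρ b y (fun j => (β j : ℝ)) hb h.mem (val y _ h.rep)
    rw [hm] at h1
    have h2 : ∑ j, |(β j : ℝ)| ≤ 3 := by linarith
    have h3 : ∑ j, |β j| ≤ 3 := by exact_mod_cast h2
    have h4 : Even (∑ j, (|β j| - β j)) := by
      refine Finset.even_sum _ fun j _ => ?_
      rcases abs_choice (β j) with h | h <;> rw [h]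
      · simp
      · exact ⟨-β j, by ring⟩
    rw [Finset.sum_sub_distrib] at h4
    have h5 := odd y β h
    rw [abs_card (cx.le1 y β h)] at h3 h4
    obtain ⟨u, hu⟩ := h4
    obtain ⟨v, hv⟩ := h5
    omega
  have single : ∀ y β, P (D : Set (R → ℝ)) b y β → (A β).card = 1 →
      y ∈ univ.image b ∪ univ.image (fun j => -b j) := by
    intro y β h h1
    obtain ⟨j, hj⟩ := Finset.card_eq_one.1 h1
    have h2 := sum_A h.rep
    rw [hj, Finset.sum_singleton] at h2
    have h3 : β j ≠ 0 := mem_A.1 (hj ▸ by simp)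
    rcases unit_of (cx.le1 _ _ h j) h3 with h4 | h4
    · rw [h4] at h2
      apply Finset.mem_union_left
      rw [Finset.mem_image]
      exact ⟨j, Finset.mem_univ _, by rw [h2]; simp⟩
    · rw [h4] at h2
      apply Finset.mem_union_right
      rw [Finset.mem_image]
      exact ⟨j, Finset.mem_univ _, by rw [h2]; simp⟩
  have cb : (univ.image b ∪ univ.image (fun j => -b j)).card ≤ 2 * k := by
    refine (Finset.card_union_le _ _).trans ?_
    have h1 : (univ.image b).card ≤ k := by
      simpa using Finset.card_image_le (s := (univ : Finset (Fin k))) (f := b)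
    have h2 : (univ.image (fun j => -b j)).card ≤ k := by
      simpa using Finset.card_image_le (s := (univ : Finset (Fin k))) (f := fun j => -b j)
    omega
  by_cases hT : ∃ y0 β0, P (D : Set (R → ℝ)) b y0 β0 ∧ (A β0).card = 3
  · obtain ⟨y0, β0, h0, h03⟩ := hT
    have hsub : D ⊆ (univ.image b ∪ univ.image (fun j => -b j)) ∪ {y0, -y0} := by
      intro y hy
      obtain ⟨β, h⟩ := rep y hy
      rcases card3 y β h with h1 | h1
      · exact Finset.mem_union_left _ (single y β h h1)
      · apply Finset.mem_union_right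
        rcases triples cx h0 h h03 h1 with h2 | h2 <;> simp [h2]
    refine (Finset.card_le_card hsub).trans ((Finset.card_union_le _ _).trans ?_)
    have := Finset.card_le_two (a := y0) (b := -y0)
    omega
  · have hsub : D ⊆ (univ.image b ∪ univ.image (fun j => -b j)) := by
      intro y hy
      obtain ⟨β, h⟩ := rep y hy
      rcases card3 y β h with h1 | h1
      · exact single y β h h1
      · exact absurd ⟨y, β, h, h1⟩ hT
    refine (Finset.card_le_card hsub).trans (cb.trans (by omega))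

end Pool.Agent.W393.SH.AC2
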